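import Pool.Agent.Y798.FC.Stm4
import Pool.Agent.Y798.FC.Law2
import Pool.Agent.Y798.FC.Struct

/-! Job FC2-FUN: the functional of a bounded function. -/

set_option autoImplicit false

namespace Pool.Agent.Y839.FC2

open Complex Filter Topology MeasureTheory UnitAddTorus NumberField IsDedekindDomain
  Pool.Agent.W540.BE Pool.Agent.TH553.RS Pool.Agent.Y798.FC
open Pool.Agent.TH553.ST hiding wt
open Pool.Agent.Y139.ID (Good good_ev wt wt_nonneg hasSum_wt avg avg_eq integrable_cont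
  integrable_cont_real)

section
variable {K : Type} [Field K] [NumberField K] {r : ℕ}

/-- Cauchy-Schwarz inequality for the weights -/
theorem cs_tsum {ε : ℝ} (hε : Good K ε) {φ ψ : HeightOneSpectrum (𝓞 K) → ℝ} {A B : ℝ}
    (hφ : ∀ v, |φ v| ≤ A) (hψ : ∀ v, |ψ v| ≤ B) :
    (∑' v, wt ε v * (φ v * ψ v)) ^ 2 ≤
      (∑' v, wt ε v * φ v ^ 2) * (∑' v, wt ε v * ψ v ^ 2) := by
  have s1 : Summable fun v => wt ε v * (φ v * ψ v) := summ_norm hε (B := A * B) fun v => by
    rw [abs_mul]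
    exact mul_le_mul (hφ v) (hψ v) (abs_nonneg _) ((abs_nonneg _).trans (hφ v))
  have s2 : Summable fun v => wt ε v * φ v ^ 2 := summ_norm hε (B := A ^ 2) fun v => by
    rw [abs_pow]
    exact pow_le_pow_left₀ (abs_nonneg _) (hφ v) 2
  have s3 : Summable fun v => wt ε v * ψ v ^ 2 := summ_norm hε (B := B ^ 2) fun v => by
    rw [abs_pow]
    exact pow_le_pow_left₀ (abs_nonneg _) (hψ v) 2
  set Z := ∑' v, wt ε v * (φ v * ψ v) with hZ
  set X := ∑' v, wt ε v * φ v ^ 2 with hX
  set Y := ∑' v, wt ε v * ψ v ^ 2 with hY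
  have key : ∀ s : ℝ, 0 ≤ X * (s * s) + (-(2 * Z)) * s + Y := by
    intro s
    have h1 : HasSum (fun v => wt ε v * (s * φ v - ψ v) ^ 2)
        (s * s * X + (-(2 * s)) * Z + Y) := by
      have h2 := ((s2.hasSum.mul_left (s * s)).add (s1.hasSum.mul_left (-(2 * s)))).add s3.hasSum
      refine h2.congr_fun fun v => ?_
      ring
    have h3 := h1.nonneg fun v => mul_nonneg (wt_nonneg hε v) (sq_nonneg _)
    nlinarith
  have h4 := discrim_le_zero key
  unfold discrim at h4
  nlinarith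

theorem cs_cE {ε : ℝ} (hε : Good K ε) {a b : HeightOneSpectrum (𝓞 K) → ℂ} {A B : ℝ}
    (ha : ∀ v, ‖a v‖ ≤ A) (hb : ∀ v, ‖b v‖ ≤ B) :
    ‖cE (fun v => a v * b v) ε‖ ^ 2 ≤ (cE (fun v => ((‖a v‖ ^ 2 : ℝ) : ℂ)) ε).re *
      (cE (fun v => ((‖b v‖ ^ 2 : ℝ) : ℂ)) ε).re := by
  have hab : ∀ v, ‖a v * b v‖ ≤ A * B := fun v => by
    rw [norm_mul]
    exact mul_le_mul (ha v) (hb v) (norm_nonneg _) ((norm_nonneg _).trans (ha v))
  have h1 := norm_cE_le' hε hab
  rw [cE_re hε (B := A * B) (fun v => by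
    rw [Complex.norm_real, norm_norm]
    exact hab v), avg_eq] at h1
  rw [cE_re hε (B := A ^ 2) (fun v => by
    rw [Complex.norm_real, norm_pow, norm_norm]
    exact pow_le_pow_left₀ (norm_nonneg _) (ha v) 2),
    cE_re hε (B := B ^ 2) (fun v => by
    rw [Complex.norm_real, norm_pow, norm_norm]
    exact pow_le_pow_left₀ (norm_nonneg _) (hb v) 2), avg_eq, avg_eq]
  simp only [Complex.ofReal_re, norm_mul] at h1 ⊢
  have h2 := cs_tsum hε (φ := fun v => ‖a v‖) (ψ := fun v => ‖b v‖) (A := A) (B := B)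
    (fun v => by rw [abs_norm]; exact ha v) (fun v => by rw [abs_norm]; exact hb v)
  exact (pow_le_pow_left₀ (norm_nonneg _) h1 2).trans h2

/-- invariance of the integrals against the density -/
theorem int_act {J : Type} [Fintype J] {W : Subgroup (Auts J)} {Φ : Finset (J → ℤ)}
    (hΦ : IsWeylDatum W Φ) {w : Auts J} (hw : w ∈ W) {g : UnitAddTorus J → ℝ} (hg : Continuous g) :
    ∫ x, g (act w x) * dens Φ x ∂(vol J) = ∫ x, g x * dens Φ x ∂(vol J) := by
  have h1 : ∫ x, g (act w x) * dens Φ x ∂(vol J) =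
      ∫ x, (fun y => g y * dens Φ y) (act w x) ∂(vol J) := by
    refine integral_congr_ae (Eventually.of_forall fun x => ?_)
    simp only
    rw [hΦ.inv w hw]
  have hd := continuous_dens Φ
  rw [h1, ← integral_map (f := fun y => g y * dens Φ y)
    (continuous_act w).measurable.aemeasurable, vol_map]
  exact (hg.mul hd).aestronglyMeasurable

theorem dens_nonneg {J : Type} [Fintype J] (Φ : Finset (J → ℤ)) (x : UnitAddTorus J) :
    0 ≤ dens Φ x := Finset.prod_nonneg fun _ _ => sq_nonneg _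

end

theorem t : StmFun := by
  intro K _ _ r W _ Φ hΦ θ hlaw h B hB hh U hU
  classical
  have hcW : (0 : ℝ) < Nat.card W := by exact_mod_cast Nat.card_pos
  have hcW' : (Nat.card W : ℝ) ≠ 0 := hcW.ne'
  have hdc := continuous_dens Φ
  set B' : ℝ := max B 0 with hB'
  have hhB : ∀ v, ‖h v‖ ≤ B' := fun v => (hB v).trans (le_max_left _ _)
  have hB'0 : 0 ≤ B' := le_max_right _ _
  set T : C(UnitAddTorus (Fin r), ℂ) → HeightOneSpectrum (𝓞 K) → ℂ := fun f v =>
    sym W f (θ v) * h v with hT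
  have hTb : ∀ f v, ‖T f v‖ ≤ Nat.card W * ‖f‖ * B' := by
    intro f v
    rw [hT]
    simp only
    rw [norm_mul]
    exact mul_le_mul (sym_norm_le _ _) (hhB v) (norm_nonneg _)
      (mul_nonneg (Nat.cast_nonneg _) (norm_nonneg _))
  have hex : ∀ f, ∃ y, Tendsto (cE (T f)) (U : Filter ℝ) (𝓝 y) := fun f =>
    ulim U (R := Nat.card W * ‖f‖ * B') (by
      filter_upwards [hU (good_ev (K := K))] with ε hε
      exact norm_cE_le hε (hTb f))
  choose ℓ hℓ using hex
  have hadd : ∀ f g v, T (f + g) v = T f v + T g v := by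
    intro f g v
    rw [hT]
    simp only [sym, ContinuousMap.add_apply]
    rw [← add_mul, ← Finset.sum_add_distrib]
  have hsmul : ∀ (a : ℂ) f v, T (a • f) v = a * T f v := by
    intro a f v
    rw [hT]
    simp only [sym, ContinuousMap.smul_apply, smul_eq_mul]
    rw [← mul_assoc, Finset.mul_sum]
  refine ⟨{ toFun := ℓ
            map_add' := fun f g => ?_
            map_smul' := fun a f => ?_ }, hℓ, fun f => ?_, fun ψ hψ hψ0 => ?_⟩
  · refine tendsto_nhds_unique (hℓ (f + g)) (((hℓ f).add (hℓ g)).congr' ?_)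
    filter_upwards [hU (good_ev (K := K))] with ε hε
    rw [← cE_add hε (hTb f) (hTb g)]
    congr 1
    funext v
    exact (hadd f g v).symm
  · refine tendsto_nhds_unique (hℓ (a • f)) (((hℓ f).const_mul a).congr fun ε => ?_)
    rw [← cE_const_mul]
    congr 1
    funext v
    exact (hsmul a f v).symm
  · change ‖ℓ f‖ ^ 2 ≤ _
    have hfc : Continuous fun x => f x := f.continuous
    have hsc : Continuous (sym W f) := continuous_sym W f.continuous
    -- the law applied to `‖sym W f‖²`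
    have h1 := (hlaw (fun x => ((‖sym W f x‖ ^ 2 : ℝ) : ℂ)) (by fun_prop) (fun w hw x => by
      rw [sym_act W f hw])).mono_left hU
    have h2 := ((Complex.continuous_re.tendsto _).comp h1).mul
      ((Complex.continuous_re.tendsto _).comp (hh.mono_left hU))
    rw [Complex.one_re, mul_one] at h2
    have h3 : ‖ℓ f‖ ^ 2 ≤ ((Nat.card W : ℂ)⁻¹ *
        ∫ x, ((‖sym W f x‖ ^ 2 : ℝ) : ℂ) * (dens Φ x : ℂ) ∂(vol (Fin r))).re := by
      refine le_of_tendsto_of_tendsto ((hℓ f).norm.pow 2) h2 ?_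
      filter_upwards [hU (good_ev (K := K))] with ε hε
      simp only [Function.comp]
      exact cs_cE hε (fun v => sym_norm_le f (θ v)) hhB
    have h4 : ((Nat.card W : ℂ)⁻¹ *
        ∫ x, ((‖sym W f x‖ ^ 2 : ℝ) : ℂ) * (dens Φ x : ℂ) ∂(vol (Fin r))).re =
        (Nat.card W : ℝ)⁻¹ * ∫ x, ‖sym W f x‖ ^ 2 * dens Φ x ∂(vol (Fin r)) := by
      have e1 : (fun x => ((‖sym W f x‖ ^ 2 : ℝ) : ℂ) * (dens Φ x : ℂ)) =
          fun x => ((‖sym W f x‖ ^ 2 * dens Φ x : ℝ) : ℂ) := by
        funext x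
        push_cast
        rfl
      rw [e1, integral_complex_ofReal]
      have e2 : (Nat.card W : ℂ)⁻¹ = (((Nat.card W : ℝ)⁻¹ : ℝ) : ℂ) := by
        push_cast
        rfl
      rw [e2, Complex.re_ofReal_mul, Complex.ofReal_re]
    rw [h4] at h3
    refine h3.trans ?_
    -- Cauchy-Schwarz for the group
    have h5 : ∀ x, ‖sym W f x‖ ^ 2 * dens Φ x ≤
        ∑ w : W, (Nat.card W : ℝ) * (‖f (act (w : Auts (Fin r)) x)‖ ^ 2 * dens Φ x) := by
      intro x
      rw [← Finset.mul_sum, ← Finset.sum_mul, ← mul_assoc]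
      refine mul_le_mul_of_nonneg_right ?_ (dens_nonneg Φ x)
      have e1 : ‖sym W f x‖ ≤ ∑ w : W, ‖f (act (w : Auts (Fin r)) x)‖ := norm_sum_le _ _
      refine (pow_le_pow_left₀ (norm_nonneg _) e1 2).trans ?_
      have e2 := sq_sum_le_card_mul_sum_sq (s := (Finset.univ : Finset W))
        (f := fun w => ‖f (act (w : Auts (Fin r)) x)‖)
      rwa [Finset.card_univ, ← Nat.card_eq_fintype_card] at e2
    have hI : ∀ w : W, Integrable (fun x => (Nat.card W : ℝ) *
        (‖f (act (w : Auts (Fin r)) x)‖ ^ 2 * dens Φ x)) (vol (Fin r)) := fun w => by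
      have hc : Continuous fun x => f (act (w : Auts (Fin r)) x) := hfc.comp (continuous_act _)
      exact integrable_cont_real _ (continuous_const.mul ((hc.norm.pow 2).mul hdc))
    have h6 : ∫ x, ‖sym W f x‖ ^ 2 * dens Φ x ∂(vol (Fin r)) ≤
        (Nat.card W : ℝ) * ((Nat.card W : ℝ) * ∫ x, ‖f x‖ ^ 2 * dens Φ x ∂(vol (Fin r))) := by
      have e1 := integral_mono (μ := vol (Fin r))
        (integrable_cont_real _ (by fun_prop : Continuous fun x => ‖sym W f x‖ ^ 2 * dens Φ x))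
        (integrable_finsetSum Finset.univ fun w _ => hI w) h5
      refine e1.trans (le_of_eq ?_)
      rw [integral_finsetSum _ fun w _ => hI w]
      have e2 : ∀ w : W, ∫ x, (Nat.card W : ℝ) *
          (‖f (act (w : Auts (Fin r)) x)‖ ^ 2 * dens Φ x) ∂(vol (Fin r)) =
          (Nat.card W : ℝ) * ∫ x, ‖f x‖ ^ 2 * dens Φ x ∂(vol (Fin r)) := by
        intro w
        rw [integral_const_mul]
        congr 1
        exact int_act hΦ w.2 (g := fun x => ‖f x‖ ^ 2) (by fun_prop)
      rw [Finset.sum_congr rfl fun w _ => e2 w, Finset.sum_const, Finset.card_univ, nsmul_eq_mul,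
        Nat.card_eq_fintype_card]
    calc (Nat.card W : ℝ)⁻¹ * ∫ x, ‖sym W f x‖ ^ 2 * dens Φ x ∂(vol (Fin r))
        ≤ (Nat.card W : ℝ)⁻¹ * ((Nat.card W : ℝ) *
          ((Nat.card W : ℝ) * ∫ x, ‖f x‖ ^ 2 * dens Φ x ∂(vol (Fin r)))) :=
          mul_le_mul_of_nonneg_left h6 (inv_nonneg.mpr hcW.le)
      _ = _ := by rw [inv_mul_cancel_left₀ hcW']
  · change ‖ℓ ⟨fun x => (ψ x : ℂ), Complex.continuous_ofReal.comp hψ⟩‖ ≤ _
    set f : C(UnitAddTorus (Fin r), ℂ) := ⟨fun x => (ψ x : ℂ), Complex.continuous_ofReal.comp hψ⟩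
      with hf
    have hfx : ∀ x, f x = (ψ x : ℂ) := fun x => rfl
    have hsreal : ∀ x, sym W f x = ((∑ w : W, ψ (act (w : Auts (Fin r)) x) : ℝ) : ℂ) := by
      intro x
      unfold sym
      push_cast
      rfl
    have hsnn : ∀ x, 0 ≤ ∑ w : W, ψ (act (w : Auts (Fin r)) x) := fun x =>
      Finset.sum_nonneg fun _ _ => hψ0 _
    have hsc : Continuous (sym W f) := continuous_sym W f.continuous
    have h1 := (hlaw (sym W f) hsc (fun w hw x => sym_act W f hw x)).mono_left hU
    have h2 := ((Complex.continuous_re.tendsto _).comp h1).const_mul B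
    have h3 : ‖ℓ f‖ ≤ B * ((Nat.card W : ℂ)⁻¹ *
        ∫ x, sym W f x * (dens Φ x : ℂ) ∂(vol (Fin r))).re := by
      refine le_of_tendsto_of_tendsto (hℓ f).norm h2 ?_
      filter_upwards [hU (good_ev (K := K))] with ε hε
      simp only [Function.comp]
      refine (norm_cE_le' hε (hTb f)).trans ?_
      have hb1 : ∀ v, ‖((‖T f v‖ : ℝ) : ℂ)‖ ≤ Nat.card W * ‖f‖ * B' := fun v => by
        rw [Complex.norm_real, norm_norm]
        exact hTb f v
      rw [cE_re hε hb1, cE_re hε (fun v => sym_norm_le f (θ v)), avg_eq, avg_eq, ← tsum_mul_left]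
      have hsb : ∀ v, |(sym W f (θ v)).re| ≤ Nat.card W * ‖f‖ := fun v =>
        (Complex.abs_re_le_norm _).trans (sym_norm_le f (θ v))
      refine Summable.tsum_le_tsum (fun v => ?_)
        (summ_norm hε (B := Nat.card W * ‖f‖ * B') fun v => by
          rw [Complex.ofReal_re, abs_norm]; exact hTb f v)
        ((summ_norm hε hsb).mul_left B)
      rw [Complex.ofReal_re, hT]
      simp only
      rw [norm_mul, hsreal, Complex.norm_real, Real.norm_eq_abs, abs_of_nonneg (hsnn _),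
        Complex.ofReal_re]
      have e1 := mul_le_mul_of_nonneg_left (hB v) (hsnn (θ v))
      have e2 := mul_le_mul_of_nonneg_left e1 (wt_nonneg hε v)
      refine e2.trans (le_of_eq ?_)
      ring
    refine h3.trans (le_of_eq ?_)
    congr 1
    have hI : ∀ w : W, Integrable (fun x => ψ (act (w : Auts (Fin r)) x) * dens Φ x)
        (vol (Fin r)) := fun w => by
      have hc : Continuous fun x => ψ (act (w : Auts (Fin r)) x) := hψ.comp (continuous_act _)
      exact integrable_cont_real _ (hc.mul hdc)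
    have e1 : (fun x => sym W f x * (dens Φ x : ℂ)) =
        fun x => ((∑ w : W, ψ (act (w : Auts (Fin r)) x) * dens Φ x : ℝ) : ℂ) := by
      funext x
      rw [hsreal, ← Complex.ofReal_mul, Finset.sum_mul]
    rw [e1, integral_complex_ofReal, integral_finsetSum _ fun w _ => hI w]
    have e3 : ∀ w : W, ∫ x, ψ (act (w : Auts (Fin r)) x) * dens Φ x ∂(vol (Fin r)) =
        ∫ x, ψ x * dens Φ x ∂(vol (Fin r)) := fun w => int_act hΦ w.2 hψ
    rw [Finset.sum_congr rfl fun w _ => e3 w, Finset.sum_const, Finset.card_univ, nsmul_eq_mul,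
      ← Nat.card_eq_fintype_card]
    have e2 : (Nat.card W : ℂ)⁻¹ = (((Nat.card W : ℝ)⁻¹ : ℝ) : ℂ) := by
      push_cast
      rfl
    rw [e2, Complex.re_ofReal_mul, Complex.ofReal_re, inv_mul_cancel_left₀ hcW']

end Pool.Agent.Y839.FC2
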